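import Pool.Agent.H629.CG.Fin

/-!
# MP_e22585_pr: from the statement with values in `[0,∞]` to the real one
-/

set_option autoImplicit false

namespace Pool.Agent.H632.CG.REAL

open MeasureTheory ProbabilityTheory Filter Topology Set
open scoped ENNReal NNReal
open Pool.Agent.H629.CG

/-- integral and integrability of a nonnegative function on a set -/
theorem real_of_lint {α : Type} [MeasurableSpace α] (ν : Measure α) {s : Set α}
    (hs : MeasurableSet s) {f g : α → ℝ} (hg : Measurable g) (hfg : ∀ x ∈ s, f x = g x)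
    (hf0 : ∀ x ∈ s, 0 ≤ f x) :
    (∫ x in s, f x ∂ν = (∫⁻ x in s, ENNReal.ofReal (f x) ∂ν).toReal) ∧
    (∫⁻ x in s, ENNReal.ofReal (f x) ∂ν < ∞ → IntegrableOn f s ν) := by
  have hm : AEStronglyMeasurable f (ν.restrict s) := by
    refine (hg.aestronglyMeasurable (μ := ν.restrict s)).congr ?_
    filter_upwards [ae_restrict_mem hs] with x hx using (hfg x hx).symm
  have h0 : 0 ≤ᵐ[ν.restrict s] f := by
    filter_upwards [ae_restrict_mem hs] with x hx using hf0 x hx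
  exact ⟨integral_eq_lintegral_of_nonneg_ae h0 hm, fun h =>
    ⟨hm, (hasFiniteIntegral_iff_ofReal h0).mpr h⟩⟩

/-- the outer integral -/
theorem outer {α : Type} [MeasurableSpace α] (ν : Measure α) {Z : α → ℝ≥0∞} (hZ : Measurable Z)
    {I : α → ℝ} (hI : ∀ ω, I ω = (Z ω).toReal) (q : ℝ) (h : ∫⁻ ω, Z ω ^ q ∂ν ≠ ∞) :
    Integrable (fun ω => I ω ^ q) ν ∧ ∫ ω, I ω ^ q ∂ν = (∫⁻ ω, Z ω ^ q ∂ν).toReal := by
  have e : (fun ω => I ω ^ q) = fun ω => (Z ω ^ q).toReal := by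
    funext ω
    rw [hI ω, ENNReal.toReal_rpow]
  have hm : AEMeasurable (fun ω => Z ω ^ q) ν := (hZ.pow_const q).aemeasurable
  rw [e]
  exact ⟨integrable_toReal_of_lintegral_ne_top hm h, integral_toReal hm (ae_lt_top' hm h)⟩

theorem t_REAL (hCNV : S_CNV) (hENN : S_ENN) : S_REAL := by
  intro μ r c hμ hμ2 hr φ hφ hφb ε₀ Ω _ P X Ω' _ P' _ M hε₀ hX hM q hq hq2
  obtain ⟨hProf, hF, -, -, hrm, -⟩ := hCNV μ r c hμ hr
  obtain ⟨hfin, hmom, hT⟩ := hENN μ r c hμ hμ2 hr φ hφ hφb ε₀ Ω P X Ω' P' M hε₀ hX hM q hq hq2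
  have hq' : -1 / μ - 1 / 2 < (-1 / 4 : ℝ) := by
    have : (1 : ℝ) / 2 < 1 / μ := one_div_lt_one_div_of_lt hμ hμ2
    have e : -1 / μ = -(1 / μ) := by ring
    rw [e]
    linarith
  have hq2' : (-1 / 4 : ℝ) < 2 / μ := by
    have : (0 : ℝ) < 2 / μ := by positivity
    linarith
  obtain ⟨hfin0, hmom0, -⟩ :=
    hENN μ r c hμ hμ2 hr φ hφ hφb ε₀ Ω P X Ω' P' M hε₀ hX hM (-1 / 4) hq' hq2'
  obtain ⟨a, b, ha, hab⟩ := hφb
  have hb : 0 < b := lt_of_lt_of_le ha ((hab 0 (by simp)).1.trans (hab 0 (by simp)).2)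
  have hφpos : ∀ u ∈ Icc (0 : ℝ) 1, 0 < φ u := fun u hu => lt_of_lt_of_le ha (hab u hu).1
  -- the weights
  set w : ℝ → ℝ → ℝ := fun p u => ((Ioo (0 : ℝ) 1).indicator r u) ^ (μ * p) * φ u with hw
  have hwm : ∀ p, Measurable (w p) := fun p => (hrm.pow_const (μ * p)).mul hφ
  have hwe : ∀ p, ∀ u ∈ Ioo (0 : ℝ) 1, r u ^ (μ * p) * φ u = w p u := by
    intro p u hu
    simp only [hw, indicator_of_mem hu]
  have hwpos : ∀ p, ∀ u ∈ Ioo (0 : ℝ) 1, 0 < r u ^ (μ * p) * φ u := fun p u hu =>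
    mul_pos (Real.rpow_pos_of_pos (hProf.pos u hu) _) (hφpos u (Ioo_subset_Icc_self hu))
  -- measurability of the inner integral of the limit
  have hZm : ∀ p, Measurable
      (fun ω => ∫⁻ u in Ioo 0 1, ENNReal.ofReal (r u ^ (μ * p) * φ u) ∂(M ω)) := by
    intro p
    have h1 : Measurable fun ω =>
        ∫⁻ u, (Ioo (0 : ℝ) 1).indicator (fun u => ENNReal.ofReal (w p u)) u ∂(M ω) :=
      (Measure.measurable_lintegral ((ENNReal.measurable_ofReal.comp (hwm p)).indicator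
        measurableSet_Ioo)).comp hM.meas
    have h2 : (fun ω => ∫⁻ u in Ioo 0 1, ENNReal.ofReal (r u ^ (μ * p) * φ u) ∂(M ω)) =
        fun ω => ∫⁻ u, (Ioo (0 : ℝ) 1).indicator (fun u => ENNReal.ofReal (w p u)) u ∂(M ω) := by
      funext ω
      rw [lintegral_indicator measurableSet_Ioo]
      exact setLIntegral_congr_fun measurableSet_Ioo fun u hu => by simp only [hwe p u hu]
    rw [h2]; exact h1
  -- the open interval has positive mass
  have hMpos : ∀ᵐ ω ∂P', M ω (Ioo 0 1) ≠ 0 := by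
    have h1 := ae_lt_top' ((hZm (-1 / 4)).pow_const (-1 / 4 : ℝ)).aemeasurable hmom0
    filter_upwards [h1] with ω hω h0
    have e : ∫⁻ u in Ioo 0 1, ENNReal.ofReal (r u ^ (μ * (-1 / 4)) * φ u) ∂(M ω) = 0 := by
      rw [Measure.restrict_eq_zero.mpr h0, lintegral_zero_measure]
    rw [e, ENNReal.zero_rpow_of_neg (by norm_num)] at hω
    exact lt_irrefl _ hω
  have hZpos : ∀ᵐ ω ∂P', ∫⁻ u in Ioo 0 1, ENNReal.ofReal (r u ^ (μ * q) * φ u) ∂(M ω) ≠ 0 := by
    filter_upwards [hMpos] with ω hω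
    have e : ∫⁻ u in Ioo 0 1, ENNReal.ofReal (r u ^ (μ * q) * φ u) ∂(M ω) =
        ∫⁻ u in Ioo 0 1, ENNReal.ofReal (w q u) ∂(M ω) :=
      setLIntegral_congr_fun measurableSet_Ioo fun u hu => by simp only [hwe q u hu]
    rw [e]
    refine ((setLIntegral_pos_iff (ENNReal.measurable_ofReal.comp (hwm q))).mpr ?_).ne'
    have hs : Function.support (ENNReal.ofReal ∘ w q) ∩ Ioo (0 : ℝ) 1 = Ioo 0 1 := by
      ext u
      simp only [mem_inter_iff, Function.mem_support, Function.comp_apply, ne_eq,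
        ENNReal.ofReal_eq_zero, not_le, and_iff_right_iff_imp]
      intro hu
      rw [← hwe q u hu]
      exact hwpos q u hu
    rw [hs]
    exact pos_iff_ne_zero.mpr hω
  have hI' : ∀ ω, ∫ u in Ioo 0 1, r u ^ (μ * q) * φ u ∂(M ω) =
      (∫⁻ u in Ioo 0 1, ENNReal.ofReal (r u ^ (μ * q) * φ u) ∂(M ω)).toReal := fun ω =>
    (real_of_lint (M ω) measurableSet_Ioo (hwm q) (hwe q) fun u hu => (hwpos q u hu).le).1
  obtain ⟨hout1, hout2⟩ := outer P' (hZm q) hI' q hmom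
  -- the fields
  set ε₁ := min ε₀ (1 / 4) with hε₁
  have hε₁p : 0 < ε₁ := lt_min hε₀ (by norm_num)
  have hIoo : Ioo 0 ε₁ ∈ 𝓝[>] (0 : ℝ) := Ioo_mem_nhdsGT hε₁p
  have hsub : ∀ ε ∈ Ioo 0 ε₁, ε ∈ Ioo 0 ε₀ ∧ 0 < ε ∧ ε ≤ 1 / 4 := fun ε he =>
    ⟨⟨he.1, he.2.trans_le (min_le_left _ _)⟩, he.1, (he.2.trans_le (min_le_right _ _)).le⟩
  have hXm : ∀ ε ∈ Ioo 0 ε₁, Measurable (Function.uncurry (X ε)) := fun ε he =>
    (hX ε (hsub ε he).1).meas
  have hXu : ∀ ε ∈ Ioo 0 ε₁, ∀ ω, Measurable (fun u => X ε u ω) := fun ε he ω =>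
    (hXm ε he).comp (measurable_id.prodMk measurable_const)
  have hfm : ∀ ε ∈ Ioo 0 ε₁, ∀ ω,
      Measurable (fun u => φ u * Real.exp (X ε u ω - X ε 0 ω)) := fun ε he ω =>
    hφ.mul (Real.measurable_exp.comp ((hXu ε he ω).sub measurable_const))
  have hfpos : ∀ ε ω, ∀ u ∈ Icc (0 : ℝ) 1, 0 < φ u * Real.exp (X ε u ω - X ε 0 ω) :=
    fun ε ω u hu => mul_pos (hφpos u hu) (Real.exp_pos _)
  -- joint measurability
  have hZεm : ∀ ε ∈ Ioo 0 ε₁, Measurable (fun ω =>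
      ∫⁻ u in Icc (0 : ℝ) 1, ENNReal.ofReal (φ u * Real.exp (X ε u ω - X ε 0 ω))) := by
    intro ε he
    refine Measurable.lintegral_prod_right' (f := fun p : Ω ε × ℝ =>
      ENNReal.ofReal (φ p.2 * Real.exp (X ε p.2 p.1 - X ε 0 p.1))) ?_
    refine ENNReal.measurable_ofReal.comp ((hφ.comp measurable_snd).mul
      (Real.measurable_exp.comp (Measurable.sub ?_ ?_)))
    · exact (hXm ε he).comp (measurable_snd.prodMk measurable_fst)
    · exact (hXm ε he).comp (measurable_const.prodMk measurable_fst)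
  -- positivity
  have hZεpos : ∀ ε ∈ Ioo 0 ε₁, ∀ ω,
      ∫⁻ u in Icc (0 : ℝ) 1, ENNReal.ofReal (φ u * Real.exp (X ε u ω - X ε 0 ω)) ≠ 0 := by
    intro ε he ω
    refine ((setLIntegral_pos_iff (ENNReal.measurable_ofReal.comp (hfm ε he ω))).mpr ?_).ne'
    have hs : Function.support (ENNReal.ofReal ∘ fun u => φ u * Real.exp (X ε u ω - X ε 0 ω)) ∩
        Icc (0 : ℝ) 1 = Icc 0 1 := by
      ext u
      simp only [mem_inter_iff, Function.mem_support, Function.comp_apply, ne_eq,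
        ENNReal.ofReal_eq_zero, not_le, and_iff_right_iff_imp]
      exact fun hu => hfpos ε ω u hu
    rw [hs]
    simp
  -- finiteness
  have hZεfin : ∀ ε ∈ Ioo 0 ε₁, ∀ᵐ ω ∂(P ε),
      ∫⁻ u in Icc (0 : ℝ) 1, ENNReal.ofReal (φ u * Real.exp (X ε u ω - X ε 0 ω)) < ∞ := by
    intro ε he
    obtain ⟨hpr, -, hone⟩ := hF ε (hsub ε he).2.1 (hsub ε he).2.2 _ _ _ (hX ε (hsub ε he).1)
    have hm : Measurable (fun ω =>
        ∫⁻ u in Ico (0 : ℝ) 1, ENNReal.ofReal (φ u * Real.exp (X ε u ω))) := by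
      refine Measurable.lintegral_prod_right' (f := fun p : Ω ε × ℝ =>
        ENNReal.ofReal (φ p.2 * Real.exp (X ε p.2 p.1))) ?_
      exact ENNReal.measurable_ofReal.comp ((hφ.comp measurable_snd).mul
        (Real.measurable_exp.comp ((hXm ε he).comp (measurable_snd.prodMk measurable_fst))))
    have hfi : ∫⁻ ω, (∫⁻ u in Ico (0 : ℝ) 1, ENNReal.ofReal (φ u * Real.exp (X ε u ω))) ∂(P ε)
        ≠ ∞ := by
      have hmm : Measurable (fun p : Ω ε × ℝ => ENNReal.ofReal b * ex (X ε p.2 p.1)) :=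
        (ENNReal.measurable_ofReal.comp (Real.measurable_exp.comp
          ((hXm ε he).comp measurable_swap))).const_mul _
      have h1 : ∫⁻ ω, (∫⁻ u in Ico (0 : ℝ) 1, ENNReal.ofReal (φ u * Real.exp (X ε u ω))) ∂(P ε)
          ≤ ENNReal.ofReal b := by
        calc ∫⁻ ω, (∫⁻ u in Ico (0 : ℝ) 1, ENNReal.ofReal (φ u * Real.exp (X ε u ω))) ∂(P ε)
            ≤ ∫⁻ ω, (∫⁻ u in Ico (0 : ℝ) 1, ENNReal.ofReal b * ex (X ε u ω)) ∂(P ε) := by
              refine lintegral_mono fun ω => ?_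
              refine setLIntegral_mono' measurableSet_Ico fun u hu => ?_
              simp only [ex]
              rw [← ENNReal.ofReal_mul hb.le]
              exact ENNReal.ofReal_le_ofReal (mul_le_mul_of_nonneg_right
                (hab u ⟨hu.1, hu.2.le⟩).2 (Real.exp_pos _).le)
          _ = ∫⁻ u in Ico (0 : ℝ) 1, (∫⁻ ω, ENNReal.ofReal b * ex (X ε u ω) ∂(P ε)) :=
              lintegral_lintegral_swap hmm.aemeasurable
          _ = ∫⁻ u in Ico (0 : ℝ) 1, ENNReal.ofReal b := by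
              refine setLIntegral_congr_fun measurableSet_Ico fun u hu => ?_
              rw [lintegral_const_mul' _ _ ENNReal.ofReal_ne_top, hone u hu, mul_one]
          _ = ENNReal.ofReal b := by simp
      exact ne_top_of_le_ne_top ENNReal.ofReal_ne_top h1
    filter_upwards [ae_lt_top hm hfi] with ω hω
    have e : ∫⁻ u in Icc (0 : ℝ) 1, ENNReal.ofReal (φ u * Real.exp (X ε u ω - X ε 0 ω)) =
        ENNReal.ofReal (Real.exp (-X ε 0 ω)) *
          ∫⁻ u in Ico (0 : ℝ) 1, ENNReal.ofReal (φ u * Real.exp (X ε u ω)) := by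
      rw [← lintegral_const_mul' _ _ ENNReal.ofReal_ne_top, setLIntegral_congr Ico_ae_eq_Icc.symm]
      refine lintegral_congr fun u => ?_
      rw [← ENNReal.ofReal_mul (Real.exp_pos _).le, sub_eq_add_neg, Real.exp_add]
      congr 1
      ring
    rw [e]
    exact ENNReal.mul_lt_top ENNReal.ofReal_lt_top hω
  have hIε : ∀ ε ∈ Ioo 0 ε₁, ∀ ω, ∫ u in Icc (0 : ℝ) 1, φ u * Real.exp (X ε u ω - X ε 0 ω) =
      (∫⁻ u in Icc (0 : ℝ) 1, ENNReal.ofReal (φ u * Real.exp (X ε u ω - X ε 0 ω))).toReal :=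
    fun ε he ω => (real_of_lint volume measurableSet_Icc (hfm ε he ω) (fun _ _ => rfl)
      fun u hu => (hfpos ε ω u hu).le).1
  -- the outer integral is eventually finite
  have hev : ∀ᶠ ε in 𝓝[>] (0 : ℝ), ∫⁻ ω, (∫⁻ u in Icc (0 : ℝ) 1,
      ENNReal.ofReal (φ u * Real.exp (X ε u ω - X ε 0 ω))) ^ q ∂(P ε) ≠ ∞ := by
    filter_upwards [hT.eventually_lt_const (lt_top_iff_ne_top.mpr hmom)] with ε he h
    rw [h, ENNReal.mul_top] at he
    · exact lt_irrefl _ he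
    · simp [Real.exp_pos]
  refine ⟨?_, hout1, ?_, ?_⟩
  · filter_upwards [hfin, hZpos] with ω h1 h2
    refine ⟨(real_of_lint (M ω) measurableSet_Ioo (hwm q) (hwe q)
      fun u hu => (hwpos q u hu).le).2 h1, ?_⟩
    rw [hI' ω]
    exact ENNReal.toReal_pos h2 h1.ne
  · filter_upwards [hIoo, hev] with ε he h
    refine ⟨?_, (outer (P ε) (hZεm ε he) (hIε ε he) q h).1⟩
    filter_upwards [hZεfin ε he] with ω hω
    refine ⟨(real_of_lint volume measurableSet_Icc (hfm ε he ω) (fun _ _ => rfl)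
      fun u hu => (hfpos ε ω u hu).le).2 hω, ?_⟩
    rw [hIε ε he ω]
    exact ENNReal.toReal_pos (hZεpos ε he ω) hω.ne
  · rw [hout2]
    refine ((ENNReal.tendsto_toReal hmom).comp hT).congr' ?_
    filter_upwards [hIoo, hev] with ε he h
    rw [Function.comp_apply, ENNReal.toReal_mul, ENNReal.toReal_ofReal (Real.exp_pos _).le,
      (outer (P ε) (hZεm ε he) (hIε ε he) q h).2]

end Pool.Agent.H632.CG.REAL
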